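import Pool.Agent.U427.PF.Final

/-!
The smallest value `I(M)` on `[0, 1]` of a standard p-function `p` with `p 1 = M`:
`I(M) = max 0 (1 + log M)` for every `M` in `(0, 1]`.

`IsPFunction`, `IsStandard`, `infOn` and `Ifun` are defined in `Pool.Agent.U427.PF.Defs`.
-/

set_option autoImplicit false

open Pool.Agent.U427.PF

theorem Pool.Agent.Results.MP_5fed26_pr.ExactOscillation.result :
    ∀ M : ℝ, 0 < M → M ≤ 1 → Ifun M = max 0 (1 + Real.log M) :=
  fun M hM hM1 => I_eq M hM hM1
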